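import Pool.Agent.H90.HW.Stmts2

/-!
Closed subschemes of affine spaces of dimension at most `d`: Noetherian induction.
-/

namespace Pool.Agent.H90.HW

open Pool.Agent.H73.Zeta MvPolynomial

/-- Counts which agree away from finitely many primes. -/
theorem Dim_ev_congr {C : Counts → Prop} (hC : Closed C) {N N' : Counts} {M : ℕ} (hM : 0 < M)
    (h : ∀ (p : Nat.Primes) k, k ≠ 0 → ¬ (p : ℕ) ∣ M → N p k = N' p k) (hN : Ev C N) : Ev C N' := by
  obtain ⟨M₀, h0, h1⟩ := hN
  refine ⟨M₀ * M, Nat.mul_pos h0 hM, fun M' hM' hd => ?_⟩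
  refine hC.congr (fun (p : Nat.Primes) k hk => ?_) (h1 M' hM' (Dvd.dvd.trans (Dvd.intro _ rfl) hd))
  unfold restr
  split_ifs with hp
  · rfl
  · exact h p k hk fun hpM => hp (Dvd.dvd.trans hpM (Dvd.dvd.trans (Dvd.intro_left _ rfl) hd))

/-- Scaling a polynomial over the rational numbers to a polynomial over the integers. -/
theorem Dim_scale {σ : Type} (f : MvPolynomial σ ℚ) :
    ∃ (c : ℕ) (f' : MvPolynomial σ ℤ), c ≠ 0 ∧
      MvPolynomial.map (Int.castRingHom ℚ) f' = MvPolynomial.C (c : ℚ) * f := by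
  induction f using MvPolynomial.induction_on with
  | C a =>
    refine ⟨a.den, MvPolynomial.C a.num, a.den_ne_zero, ?_⟩
    rw [MvPolynomial.map_C, ← MvPolynomial.C_mul]
    congr 1
    rw [eq_intCast]
    exact (Rat.den_mul_eq_num a).symm
  | add p q hp hq =>
    obtain ⟨c, p', hc, h1⟩ := hp
    obtain ⟨c', q', hc', h2⟩ := hq
    refine ⟨c * c', MvPolynomial.C (c' : ℤ) * p' + MvPolynomial.C (c : ℤ) * q',
      Nat.mul_ne_zero hc hc', ?_⟩
    rw [map_add, map_mul, map_mul, MvPolynomial.map_C, MvPolynomial.map_C, h1, h2]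
    simp only [Nat.cast_mul, MvPolynomial.C_mul, eq_intCast, Int.cast_natCast]
    ring
  | mul_X p i hp =>
    obtain ⟨c, p', hc, h1⟩ := hp
    refine ⟨c, p' * MvPolynomial.X i, hc, ?_⟩
    rw [map_mul, MvPolynomial.map_X, h1, mul_assoc]

theorem Dim_mem_of_scale {σ : Type} {I : Ideal (MvPolynomial σ ℚ)} {f : MvPolynomial σ ℚ} {c : ℕ}
    (hc : c ≠ 0) (h : MvPolynomial.C (c : ℚ) * f ∈ I) : f ∈ I := by
  have h1 : f = MvPolynomial.C ((c : ℚ)⁻¹) * (MvPolynomial.C (c : ℚ) * f) := by
    rw [← mul_assoc, ← MvPolynomial.C_mul, inv_mul_cancel₀ (by exact_mod_cast hc),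
      MvPolynomial.C_1, one_mul]
  rw [h1]
  exact I.mul_mem_left _ h

theorem Dim_ideal_le {σ : Type} {F G : Finset (MvPolynomial σ ℤ)} (h : F ⊆ G) :
    idealQ F ≤ idealQ G :=
  Ideal.span_mono (Set.image_mono (by exact_mod_cast h))

theorem Dim_ideal_mem {σ : Type} {F : Finset (MvPolynomial σ ℤ)} {f : MvPolynomial σ ℤ}
    (h : f ∈ F) : MvPolynomial.map (Int.castRingHom ℚ) f ∈ idealQ F :=
  Ideal.subset_span ⟨f, h, rfl⟩

theorem Dim_krull {σ : Type} {I J : Ideal (MvPolynomial σ ℚ)} (h : I ≤ J) {d : ℕ}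
    (hI : ringKrullDim (MvPolynomial σ ℚ ⧸ I) ≤ d) :
    ringKrullDim (MvPolynomial σ ℚ ⧸ J) ≤ d :=
  (ringKrullDim_le_of_surjective (Ideal.Quotient.factor h) (Ideal.Quotient.factor_surjective h)).trans
    hI

theorem Dim_not_dvd {p : Nat.Primes} {k M : ℕ} (h : ¬ (p : ℕ) ∣ M) : (M : FF p k) ≠ 0 := by
  have : Fact ((p : Nat.Primes) : ℕ).Prime := ⟨p.2⟩
  intro h1
  exact h ((CharP.cast_eq_zero_iff (FF p k) (p : ℕ) M).mp h1)

theorem Dim_zero {C : Counts → Prop} (hC : Closed C) {m : ℕ} (hA : AffIn (Ev C) m) :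
    Ev C (fun _ _ => 0) := by
  refine Dim_ev_congr hC (M := 1) Nat.one_pos (fun (p : Nat.Primes) k hk _ => ?_) (hA {1})
  unfold affCount cnt
  have : IsEmpty {x : Fin m → FF p k // ∀ f ∈ ({1} : Finset (MvPolynomial (Fin m) ℤ)),
      aeval x f = 0} := by
    refine ⟨fun x => ?_⟩
    have h := x.2 1 (Finset.mem_singleton_self _)
    rw [map_one] at h
    exact one_ne_zero h
  simp

theorem Dim_incl_excl {α : Type*} [Finite α] (P Q R : α → Prop)
    (h : ∀ x, P x → Q x ∨ R x) :
    cnt P = cnt (fun x => Q x ∧ P x) + cnt (fun x => R x ∧ P x) -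
      cnt (fun x => Q x ∧ R x ∧ P x) := by
  classical
  have := Fintype.ofFinite α
  rw [cnt_sum, cnt_sum, cnt_sum, cnt_sum, ← Finset.sum_add_distrib, ← Finset.sum_sub_distrib]
  refine Finset.sum_congr rfl fun x _ => ?_
  have hx := h x
  by_cases h1 : P x <;> by_cases h2 : Q x <;> by_cases h3 : R x <;> simp_all

theorem dim (hP : SPrime) (hI : SInc) (hE : SEvClosed) : SDim := by
  classical
  intro C hC d hA n
  have hEv : Closed (Ev C) := hE C hC
  suffices H : ∀ I : Ideal (MvPolynomial (Fin n) ℚ), ∀ F : Finset (MvPolynomial (Fin n) ℤ),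
      idealQ F = I → ringKrullDim (MvPolynomial (Fin n) ℚ ⧸ idealQ F) ≤ d → Ev C (affCount F) from
    fun F => H _ F rfl
  intro I
  induction I using IsNoetherian.induction with
  | hgt I ih =>
    intro F hF hd
    have step : ∀ G : Finset (MvPolynomial (Fin n) ℤ), F ⊆ G →
        (∃ f ∈ G, MvPolynomial.map (Int.castRingHom ℚ) f ∉ idealQ F) → Ev C (affCount G) := by
      rintro G hFG ⟨f, hf, hfn⟩
      have h1 : idealQ F ≤ idealQ G := Dim_ideal_le hFG
      refine ih (idealQ G) ?_ G rfl (Dim_krull h1 hd)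
      rw [gt_iff_lt, ← hF]
      refine lt_of_le_of_ne h1 fun h => hfn ?_
      rw [h]
      exact Dim_ideal_mem hf
    by_cases htop : idealQ F = ⊤
    · obtain ⟨M, hM, h1⟩ := hI n F 1 (by rw [htop]; exact Submodule.mem_top)
      refine Dim_ev_congr hC hM (fun (p : Nat.Primes) k hk hp => ?_) (Dim_zero hC hA)
      unfold affCount cnt
      have : IsEmpty {x : Fin n → FF p k // ∀ f ∈ F, aeval x f = 0} := by
        refine ⟨fun x => ?_⟩
        have h := h1 (FF p k) x.1 (Dim_not_dvd hp) x.2
        rw [map_one] at h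
        exact one_ne_zero h
      simp
    by_cases hprime : (idealQ F).IsPrime
    · obtain ⟨h, hh, h1⟩ := hP C hC d hA n F hprime hd
      exact h1 (step _ (Finset.subset_insert _ _) ⟨h, Finset.mem_insert_self _ _, hh⟩)
    · rw [Ideal.isPrime_iff] at hprime
      push Not at hprime
      obtain ⟨f, g, hfg, hf, hg⟩ := hprime htop
      obtain ⟨c, f', hc, h1⟩ := Dim_scale f
      obtain ⟨c', g', hc', h2⟩ := Dim_scale g
      have hf' : MvPolynomial.map (Int.castRingHom ℚ) f' ∉ idealQ F := by
        rw [h1]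
        exact fun h => hf (Dim_mem_of_scale hc h)
      have hg' : MvPolynomial.map (Int.castRingHom ℚ) g' ∉ idealQ F := by
        rw [h2]
        exact fun h => hg (Dim_mem_of_scale hc' h)
      have hfg' : MvPolynomial.map (Int.castRingHom ℚ) (f' * g') ∈ idealQ F := by
        rw [map_mul, h1, h2]
        have : MvPolynomial.C (c : ℚ) * f * (MvPolynomial.C (c' : ℚ) * g) =
            MvPolynomial.C (c : ℚ) * MvPolynomial.C (c' : ℚ) * (f * g) := by ring
        rw [this]
        exact Ideal.mul_mem_left _ _ hfg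
      obtain ⟨M, hM, h3⟩ := hI n F (f' * g') hfg'
      have e1 := step (insert f' F) (Finset.subset_insert _ _)
        ⟨f', Finset.mem_insert_self _ _, hf'⟩
      have e2 := step (insert g' F) (Finset.subset_insert _ _)
        ⟨g', Finset.mem_insert_self _ _, hg'⟩
      have e3 := step (insert f' (insert g' F))
        ((Finset.subset_insert _ _).trans (Finset.subset_insert _ _))
        ⟨f', Finset.mem_insert_self _ _, hf'⟩
      refine Dim_ev_congr hC hM (fun (p : Nat.Primes) k hk hp => ?_) (hEv.add (hEv.add e1 e2) (hEv.neg e3))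
      have : Fact ((p : Nat.Primes) : ℕ).Prime := ⟨p.2⟩
      have : Finite (FF p k) := by
        have := Fintype.ofFinite (FF p k)
        infer_instance
      have h4 := Dim_incl_excl (α := Fin n → FF p k) (fun x => ∀ f ∈ F, aeval x f = 0)
        (fun x => aeval x f' = 0) (fun x => aeval x g' = 0) (fun x hx => by
          have h5 := h3 (FF p k) x (Dim_not_dvd hp) hx
          rw [map_mul] at h5
          exact mul_eq_zero.mp h5)
      have k1 : affCount (insert f' F) p k =
          cnt (fun x : Fin n → FF p k => aeval x f' = 0 ∧ ∀ f ∈ F, aeval x f = 0) := by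
        unfold affCount
        exact cnt_congr fun x => Finset.forall_mem_insert _ _ _
      have k2 : affCount (insert g' F) p k =
          cnt (fun x : Fin n → FF p k => aeval x g' = 0 ∧ ∀ f ∈ F, aeval x f = 0) := by
        unfold affCount
        exact cnt_congr fun x => Finset.forall_mem_insert _ _ _
      have k3 : affCount (insert f' (insert g' F)) p k =
          cnt (fun x : Fin n → FF p k => aeval x f' = 0 ∧ aeval x g' = 0 ∧
            ∀ f ∈ F, aeval x f = 0) := by
        unfold affCount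
        exact cnt_congr fun x => by
          rw [Finset.forall_mem_insert, Finset.forall_mem_insert]
      have k0 : affCount F p k = cnt (fun x : Fin n → FF p k => ∀ f ∈ F, aeval x f = 0) := rfl
      show affCount (insert f' F) p k + affCount (insert g' F) p k +
        - affCount (insert f' (insert g' F)) p k = affCount F p k
      rw [k0, h4, k1, k2, k3]
      ring

end Pool.Agent.H90.HW
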